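import Pool.Agent.T2H36.BR.B1

set_option autoImplicit false
set_option linter.unusedSectionVars false
set_option linter.style.haveILetI false

/-!
Project BR, part 2: the theorem.
-/

open Matrix Filter Topology NumberField IsDedekindDomain
open Pool.Agent.Y142.ZO Pool.Agent.Y142.ZI

namespace Pool.Agent.T2H36.BR

open Pool.Agent.R932 Pool.Agent.R932.OP Pool.Agent.T2H36.IX

/-- a rational polynomial has a multiple with integral coefficients -/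
theorem exists_denom (w : Polynomial ℚ) : ∃ (b : ℕ) (w' : Polynomial ℤ), 0 < b ∧
    w'.map (Int.castRingHom ℚ) = Polynomial.C (b : ℚ) * w := by
  obtain ⟨⟨b, hb⟩, hb'⟩ := IsLocalization.integerNormalization_map_to_map (nonZeroDivisors ℤ) w
  refine ⟨b.natAbs, Polynomial.C (Int.sign b) * IsLocalization.integerNormalization (nonZeroDivisors ℤ) w, ?_, ?_⟩
  · exact Int.natAbs_pos.2 (nonZeroDivisors.ne_zero hb)
  · rw [Polynomial.map_mul, Polynomial.map_C]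
    have h1 : (IsLocalization.integerNormalization (nonZeroDivisors ℤ) w).map (Int.castRingHom ℚ) =
        Polynomial.C (b : ℚ) * w := by
      have h2 := hb'
      rw [show (algebraMap ℤ ℚ) = Int.castRingHom ℚ from rfl] at h2
      rw [h2, ← Polynomial.smul_eq_C_mul]
      ext i
      simp
    rw [h1, ← mul_assoc, ← Polynomial.C_mul]
    congr 2
    show ((Int.sign b : ℤ) : ℚ) * (b : ℚ) = ((b.natAbs : ℕ) : ℚ)
    rw [← Int.cast_mul, Int.sign_mul_self_eq_natAbs]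
    simp

/-- **eigenvalues which are not roots of unity kill the invariants** -/
theorem integral_coprime {P : Polynomial ℚ} {D : ℕ} (hco : IsCoprime P (Polynomial.X ^ D - 1)) :
    ∃ b : ℕ, 0 < b ∧ ∀ (ℓ : ℕ) [Fact ℓ.Prime] (n : ℕ) (A : Matrix (Fin n) (Fin n) ℤ_[ℓ]),
    (genM ℓ A).charpoly = P.map (algebraMap ℚ ℚ_[ℓ]) → ∀ x : Fin n → ℚ_[ℓ],
    (∀ a, ‖(genM ℓ (A ^ D) *ᵥ x - x) a‖ ≤ 1) → ∀ a, ‖(b : ℚ_[ℓ]) * x a‖ ≤ 1 := by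
  obtain ⟨u, w, huw⟩ := hco
  obtain ⟨b, w', hb, hw'⟩ := exists_denom w
  refine ⟨b, hb, fun ℓ hp n A hA x hx => ?_⟩
  -- the matrix `w'(A)`
  let M : Matrix (Fin n) (Fin n) ℤ_[ℓ] := Polynomial.aeval A w'
  have hgen : ∀ f : Polynomial ℤ, genM ℓ (Polynomial.aeval A f) =
      Polynomial.aeval (genM ℓ A) (f.map (Int.castRingHom ℚ)) := by
    intro f
    have h1 : (Polynomial.aeval (genM ℓ A)) (f.map (Int.castRingHom ℚ)) =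
        Polynomial.aeval (genM ℓ A) f := by
      rw [show (Int.castRingHom ℚ) = algebraMap ℤ ℚ from rfl, Polynomial.aeval_map_algebraMap]
    rw [h1]
    have h2 := Polynomial.map_aeval_eq_aeval_map (R := ℤ) (S := Matrix (Fin n) (Fin n) ℤ_[ℓ])
      (T := ℤ) (U := Matrix (Fin n) (Fin n) ℚ_[ℓ]) (φ := RingHom.id ℤ)
      (ψ := (algebraMap ℤ_[ℓ] ℚ_[ℓ]).mapMatrix) (by ext; simp) f A
    rw [Polynomial.map_id] at h2
    exact h2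
  have hCH : Polynomial.aeval (genM ℓ A) P = 0 := by
    have h1 := Matrix.aeval_self_charpoly (genM ℓ A)
    rw [hA, Polynomial.aeval_map_algebraMap] at h1
    exact h1
  have hkey : genM ℓ M * (genM ℓ (A ^ D) - 1) = (b : ℚ_[ℓ]) • (1 : Matrix (Fin n) (Fin n) ℚ_[ℓ]) := by
    have h1 := congrArg (Polynomial.aeval (genM ℓ A)) huw
    rw [map_add, map_mul, map_mul, hCH, mul_zero, zero_add, map_one, map_sub, map_pow,
      Polynomial.aeval_X, map_one] at h1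
    have h2 : genM ℓ (A ^ D) = genM ℓ A ^ D := by
      show (A ^ D).map (algebraMap ℤ_[ℓ] ℚ_[ℓ]) = _
      rw [Matrix.map_pow]
      rfl
    rw [hgen w', hw', map_mul, Polynomial.aeval_C, h2, mul_assoc, h1, mul_one]
    ext i j
    rw [Matrix.algebraMap_matrix_apply, Matrix.smul_apply, Matrix.one_apply]
    split_ifs <;> simp
  intro a
  have h1 : (b : ℚ_[ℓ]) • x = genM ℓ M *ᵥ (genM ℓ (A ^ D) *ᵥ x - x) := by
    have h2 : genM ℓ (A ^ D) *ᵥ x - x = (genM ℓ (A ^ D) - 1) *ᵥ x := by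
      rw [sub_mulVec, one_mulVec]
    rw [h2, mulVec_mulVec, hkey, smul_mulVec, one_mulVec]
  have h2 := congrFun h1 a
  rw [Pi.smul_apply, smul_eq_mul] at h2
  rw [h2, mulVec, dotProduct]
  have h3 : ∀ s : Finset (Fin n), ‖∑ j ∈ s, genM ℓ M a j * (genM ℓ (A ^ D) *ᵥ x - x) j‖ ≤ 1 := by
    intro s
    refine Finset.sum_induction _ (fun r : ℚ_[ℓ] => ‖r‖ ≤ 1) (fun r t hr ht => ?_) (by simp)
      fun j _ => ?_
    · exact (Padic.nonarchimedean r t).trans (max_le hr ht)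
    · rw [norm_mul]
      have h4 : ‖genM ℓ M a j‖ ≤ 1 := (M a j).2
      exact mul_le_one₀ h4 (norm_nonneg _) (hx j)
  exact h3 Finset.univ

section final

variable {K : Type} [Field K] [NumberField K] {S : Set (HeightOneSpectrum (𝓞 K))}
  {Γ : Type} [Group Γ] [TopologicalSpace Γ] [IsTopologicalGroup Γ] [CompactSpace Γ]
  {s : GK K →* Γ}

/-- the invariants of all `D`-th powers are killed by `C` -/
def Kills (ℓ : ℕ) [Fact ℓ.Prime] {n : ℕ} {Γ : Type} [Group Γ]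
    (β : Γ →* Matrix (Fin n) (Fin n) ℤ_[ℓ]) (D C : ℕ) : Prop :=
  ∀ x : Fin n → ℚ_[ℓ], (∀ (g : Γ) (a), ‖(genM ℓ (β (g ^ D)) *ᵥ x - x) a‖ ≤ 1) →
    ∀ a, ‖(C : ℚ_[ℓ]) * x a‖ ≤ 1

theorem norm_nat_le (ℓ : ℕ) [Fact ℓ.Prime] (m : ℕ) : ‖(m : ℚ_[ℓ])‖ ≤ 1 := by
  have := Padic.norm_int_le_one (p := ℓ) m
  rwa [Int.cast_natCast] at this

theorem Kills.mul_left {ℓ : ℕ} [Fact ℓ.Prime] {n : ℕ} {Γ : Type} [Group Γ]
    {β : Γ →* Matrix (Fin n) (Fin n) ℤ_[ℓ]} {D C : ℕ} (h : Kills ℓ β D C) (m : ℕ) :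
    Kills ℓ β D (m * C) := by
  intro x hx a
  rw [Nat.cast_mul, mul_assoc, norm_mul]
  exact mul_le_one₀ (norm_nat_le ℓ m) (norm_nonneg _) (h x hx a)

theorem Kills.of_dvd {ℓ : ℕ} [Fact ℓ.Prime] {n : ℕ} {Γ : Type} [Group Γ]
    {β : Γ →* Matrix (Fin n) (Fin n) ℤ_[ℓ]} {D C C' : ℕ} (h : Kills ℓ β D C) (hd : C ∣ C') :
    Kills ℓ β D C' := by
  obtain ⟨m, rfl⟩ := hd
  rw [mul_comm]
  exact h.mul_left m

theorem isUnit_large {n : ℕ} {Z : Matrix (Fin n) (Fin n) ℤ} (hZ : Z.det ≠ 0) (ℓ : ℕ)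
    [hp : Fact ℓ.Prime] (hℓ : Z.det.natAbs < ℓ) :
    IsUnit (Z.map (Int.cast : ℤ → ℤ_[ℓ])).det := by
  have hdet : (Z.map (Int.cast : ℤ → ℤ_[ℓ])).det = ((Z.det : ℤ) : ℤ_[ℓ]) := by
    have := (Int.castRingHom ℤ_[ℓ]).map_det Z
    rw [RingHom.mapMatrix_apply] at this
    exact this.symm
  rw [hdet, PadicInt.isUnit_iff, PadicInt.norm_def, PadicInt.coe_intCast]
  refine le_antisymm (Padic.norm_int_le_one _) ?_
  by_contra hcon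
  rw [not_le, Padic.norm_intCast_lt_one_iff] at hcon
  have h1 : ℓ ∣ Z.det.natAbs := Int.natCast_dvd.1 hcon
  exact absurd (Nat.le_of_dvd (Int.natAbs_pos.2 hZ) h1) (by omega)

/-- the conclusion for one piece: for the primes in a set of density one the invariants of all
`D`-th powers are killed by a constant -/
def Bounded {n : ℕ} (β : ∀ (ℓ : ℕ) [Fact ℓ.Prime], Γ →* Matrix (Fin n) (Fin n) ℤ_[ℓ]) : Prop :=
  ∃ Λ : Set ℕ, Y142.ZI.DensityZero {ℓ | ℓ.Prime ∧ ℓ ∉ Λ} ∧ ∀ D : ℕ, 0 < D → ∃ C : ℕ, 0 < C ∧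
    ∀ (ℓ : ℕ) [Fact ℓ.Prime], ℓ ∈ Λ → Kills ℓ (β ℓ) D C

/-- **odd rank, from one prime** -/
theorem bounded_odd {n : ℕ} {P : HeightOneSpectrum (𝓞 K) → Polynomial ℚ} (hodd : Odd n) (hn : 5 ≤ n)
    (hS : S.Finite) (β : ∀ (ℓ : ℕ) [Fact ℓ.Prime], Γ →* Matrix (Fin n) (Fin n) ℤ_[ℓ])
    (hβ : ∀ (ℓ : ℕ) [Fact ℓ.Prime], Continuous (β ℓ)) {Z : Matrix (Fin n) (Fin n) ℤ}
    (hZ : Z.det ≠ 0)
    (hsys : ∀ (ℓ : ℕ) [Fact ℓ.Prime], IntegralSys K n ℓ s (β ℓ) (Z.map (Int.cast : ℤ → ℤ_[ℓ])) S P)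
    (ℓ₀ : ℕ) [hℓ₀ : Fact ℓ₀.Prime] (hdvd : ¬ ℓ₀ ∣ n - 1)
    (hfull : FullLie ℓ₀ (genRep ℓ₀ ((β ℓ₀).comp s)) (genM ℓ₀ (Z.map (Int.cast : ℤ → ℤ_[ℓ₀])))) :
    Bounded β := by
  classical
  obtain ⟨b, hb⟩ := big_one hodd hn hS β hβ (fun ℓ _ => Z.map (Int.cast : ℤ → ℤ_[ℓ])) hsys
    ⟨Z.det.natAbs, fun ℓ _ h => isUnit_large hZ ℓ h⟩ ℓ₀ hdvd hfull
  have hF := orth_one (K := K) hodd (by omega) hS (fun ℓ _ => genRep ℓ ((β ℓ).comp s))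
    (fun ℓ _ => genM ℓ (Z.map (Int.cast : ℤ → ℤ_[ℓ]))) (fun ℓ _ => orthogonal_of (hsys ℓ)) ℓ₀ hdvd
    hfull
  let Λ : Set ℕ := {ℓ | ∀ _ : Fact ℓ.Prime,
    FullLie ℓ (genRep ℓ ((β ℓ).comp s)) (genM ℓ (Z.map (Int.cast : ℤ → ℤ_[ℓ]))) ∧
    (b < ℓ → NormBig ℓ (β ℓ) (Z.map (Int.cast : ℤ → ℤ_[ℓ])))}
  refine ⟨Λ, Y142.ZI.DensityZero.mono (hF.union hb) ?_, fun D hD => ?_⟩
  · rintro ℓ ⟨hp, hℓ⟩
    by_contra hcon
    apply hℓ
    intro hp'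
    refine ⟨?_, fun hbℓ => ?_⟩
    · by_contra h
      exact hcon (Or.inl ⟨hp', h⟩)
    · by_contra h
      exact hcon (Or.inr ⟨hp', hbℓ, h⟩)
  · have hsmall : ∀ ℓ : ℕ, ∃ c : ℕ, ∀ _ : Fact ℓ.Prime, ℓ ∈ Λ → Kills ℓ (β ℓ) D (ℓ ^ c) := by
      intro ℓ
      by_cases hℓ : ℓ.Prime ∧ ℓ ∈ Λ
      · haveI : Fact ℓ.Prime := ⟨hℓ.1⟩
        have h1 := hsys ℓ
        obtain ⟨c, hc⟩ := integral_full (by omega) (β := (β ℓ).comp s)
          (B := genM ℓ (Z.map (Int.cast : ℤ → ℤ_[ℓ])))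
          (orthogonal_of (hsys ℓ)).2.1 (orthogonal_of (hsys ℓ)).2.2.1 (hℓ.2 inferInstance).1 hD
        refine ⟨c, fun _ _ x hx a => ?_⟩
        have h2 := hc x (fun g e => by
          have h3 := hx (s g) e
          rw [← map_pow] at h3
          exact h3) a
        rw [Nat.cast_pow]
        exact h2
      · exact ⟨0, fun hp hm => absurd ⟨hp.out, hm⟩ hℓ⟩
    choose c hc using hsmall
    let b₀ : ℕ := max (max b Z.det.natAbs) (max D 2)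
    refine ⟨∏ ℓ ∈ (Finset.range (b₀ + 1)).filter Nat.Prime, ℓ ^ c ℓ, ?_, fun ℓ hp hℓ => ?_⟩
    · exact Finset.prod_pos fun ℓ hℓ => pow_pos (Finset.mem_filter.1 hℓ).2.pos _
    · by_cases hle : ℓ ≤ b₀
      · refine (hc ℓ hp hℓ).of_dvd ?_
        exact Finset.dvd_prod_of_mem (fun ℓ => ℓ ^ c ℓ)
          (Finset.mem_filter.2 ⟨Finset.mem_range.2 (by omega), hp.out⟩)
      · simp only [b₀, not_le, max_lt_iff] at hle
        obtain ⟨⟨h1, h2⟩, h3, h4⟩ := hle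
        have h5 : Kills ℓ (β ℓ) D 1 := by
          intro x hx a
          rw [Nat.cast_one, one_mul]
          refine integral_big (by omega) (by omega) (hsys ℓ).2.1 (isUnit_large hZ ℓ h2)
            (hsys ℓ).2.2.2.1 ((hℓ hp).2 h1) (D := D) ?_ hx a
          intro hdv
          exact absurd (Nat.le_of_dvd hD hdv) (by omega)
        exact h5.of_dvd (one_dvd _)

/-- **a place at which no eigenvalue is a root of unity** -/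
theorem bounded_place {n : ℕ} {P : HeightOneSpectrum (𝓞 K) → Polynomial ℚ}
    (β : ∀ (ℓ : ℕ) [Fact ℓ.Prime], Γ →* Matrix (Fin n) (Fin n) ℤ_[ℓ])
    (hfrob : ∀ (ℓ : ℕ) [Fact ℓ.Prime], ∀ v ∉ S, (ℓ : 𝓞 K) ∉ v.asIdeal → ∀ σ : GK K,
      IsFrobenius v σ → (genM ℓ (β ℓ (s σ⁻¹))).charpoly = (P v).map (algebraMap ℚ ℚ_[ℓ]))
    {v : HeightOneSpectrum (𝓞 K)} (hv : v ∉ S)
    (hroot : ∀ k : ℕ, 0 < k → ∀ x : ℂ, Polynomial.aeval x (P v) = 0 → x ^ k ≠ 1) : Bounded β := by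
  refine ⟨{ℓ | Ideal.absNorm v.asIdeal < ℓ ∨ (ℓ : 𝓞 K) ∉ v.asIdeal}, ?_, fun D hD => ?_⟩
  · refine densityZero_finite ((Set.finite_Iic (Ideal.absNorm v.asIdeal)).subset ?_)
    rintro ℓ ⟨-, hℓ⟩
    by_contra h
    exact hℓ (Or.inl (not_le.1 h))
  · obtain ⟨C, hC, hK⟩ := integral_coprime (D := D) (Y142.ZO.coprime_of_roots hroot D hD)
    refine ⟨C, hC, fun ℓ hp hℓ x hx => ?_⟩
    have hvℓ : (ℓ : 𝓞 K) ∉ v.asIdeal := by
      rcases hℓ with h | h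
      · exact not_mem_of_lt v hp.out h
      · exact h
    obtain ⟨σ, hσ⟩ := Pool.Agent.W401.Frob.exists_frob v
    refine hK ℓ n (β ℓ (s σ⁻¹)) (hfrob ℓ v hv hvℓ σ hσ) x fun a => ?_
    have h1 := hx (s σ⁻¹) a
    rwa [map_pow (β ℓ)] at h1

/-- **the final theorem: one set of primes and one constant for all pieces and all subgroups of
bounded index** -/
theorem br_final {ι : Type} [Fintype ι] {n : ι → ℕ}
    (β : ∀ (i : ι) (ℓ : ℕ) [Fact ℓ.Prime], Γ →* Matrix (Fin (n i)) (Fin (n i)) ℤ_[ℓ])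
    (h : ∀ i, Bounded (β i)) :
    ∃ Λ : Set ℕ, Y142.ZI.DensityZero {ℓ | ℓ.Prime ∧ ℓ ∉ Λ} ∧ ∀ d : ℕ, ∃ C : ℕ, 0 < C ∧
      ∀ U : Subgroup Γ, U.index ≠ 0 → U.index ≤ d → ∀ (ℓ : ℕ) [Fact ℓ.Prime], ℓ ∈ Λ → ∀ (i : ι)
        (x : Fin (n i) → ℚ_[ℓ]), (∀ σ ∈ U, ∀ a, ‖(genM ℓ (β i ℓ σ) *ᵥ x - x) a‖ ≤ 1) →
        ∀ a, ‖(C : ℚ_[ℓ]) * x a‖ ≤ 1 := by
  classical
  choose Λ hΛ hΛC using h
  refine ⟨⋂ i, Λ i, ?_, fun d => ?_⟩
  · refine (PO.dens_iUnion hΛ).mono ?_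
    rintro ℓ ⟨hp, hℓ⟩
    rw [Set.mem_iInter] at hℓ
    push Not at hℓ
    obtain ⟨i, hi⟩ := hℓ
    exact ⟨i, hp, hi⟩
  · choose C hC hK using fun i => hΛC i d.factorial d.factorial_pos
    refine ⟨∏ i, C i, Finset.prod_pos fun i _ => hC i, fun U hU hUd ℓ hp hℓ i x hx => ?_⟩
    refine ((hK i ℓ (Set.mem_iInter.1 hℓ i)).of_dvd
      (Finset.dvd_prod_of_mem C (Finset.mem_univ i))) x fun g a => ?_
    obtain ⟨k, hk, hkU, hmem⟩ := U.exists_pow_mem_of_index_ne_zero hU g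
    obtain ⟨j, hj⟩ := Nat.dvd_factorial hk (hkU.trans hUd)
    refine hx _ ?_ a
    rw [hj, pow_mul]
    exact U.pow_mem hmem j

/-- vectors over `ℚ_ℓ` with bounded multiples are zero -/
theorem tate_of {ℓ : ℕ} [hp : Fact ℓ.Prime] {n : ℕ} {C : ℕ} (hC : 0 < C) {x : Fin n → ℚ_[ℓ]}
    (h : ∀ m : ℕ, ∀ a, ‖(C : ℚ_[ℓ]) * (((ℓ : ℚ_[ℓ]) ^ m)⁻¹ * x a)‖ ≤ 1) : x = 0 := by
  funext a
  by_contra hne
  have hC0 : (C : ℚ_[ℓ]) ≠ 0 := by exact_mod_cast hC.ne'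
  have h1 : 0 < ‖(C : ℚ_[ℓ]) * x a‖ := norm_pos_iff.2 (mul_ne_zero hC0 hne)
  have hℓ1 : (1 : ℝ) < ℓ := by exact_mod_cast hp.out.one_lt
  obtain ⟨m, hm⟩ := pow_unbounded_of_one_lt (‖(C : ℚ_[ℓ]) * x a‖)⁻¹ hℓ1
  have h2 := h m a
  have h3 : ‖(C : ℚ_[ℓ]) * (((ℓ : ℚ_[ℓ]) ^ m)⁻¹ * x a)‖ = (ℓ : ℝ) ^ m * ‖(C : ℚ_[ℓ]) * x a‖ := by
    rw [mul_left_comm, norm_mul, norm_inv, norm_pow, Padic.norm_p, inv_pow, inv_inv]
  rw [h3] at h2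
  have h4 : 1 < (ℓ : ℝ) ^ m * ‖(C : ℚ_[ℓ]) * x a‖ := by
    rw [inv_lt_iff_one_lt_mul₀ h1] at hm
    linarith [mul_comm ((ℓ : ℝ) ^ m) ‖(C : ℚ_[ℓ]) * x a‖]
  linarith

end final

end Pool.Agent.T2H36.BR
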