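import Pool.Agent.T2H36.IX.E2
import Pool.Agent.T2H36.IX.F7
import Pool.Agent.T2H36.IX.IR
import Pool.Agent.R932.OP.OrthA
import Pool.Agent.R932.OP.OrthE
import Pool.Agent.R932.OP.NtCay
import Pool.Agent.T2H36.MG.H5

set_option autoImplicit false
set_option linter.unusedSectionVars false
set_option linter.style.haveILetI false

/-!
Project BR, part 1: invariants in `T ⊗ ℚ_ℓ / ℤ_ℓ`.
-/

open Matrix Filter Topology NumberField IsDedekindDomain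
open Pool.Agent.Y142.ZO Pool.Agent.Y142.ZI

namespace Pool.Agent.T2H36.BR

open Pool.Agent.R932 Pool.Agent.R932.OP Pool.Agent.T2H36.IX

section modl

variable {ℓ : ℕ} [hp : Fact ℓ.Prime] {n : ℕ} {Γ : Type} [Group Γ] [TopologicalSpace Γ]
  {β : Γ →* Matrix (Fin n) (Fin n) ℤ_[ℓ]} {B : Matrix (Fin n) (Fin n) ℤ_[ℓ]}

/-- no nonzero vector modulo `ℓ` is fixed by all `D`-th powers, `D` prime to `ℓ` -/
theorem fixed_zero (h2 : ℓ ≠ 2) (hn : 3 ≤ n) (hBs : Bᵀ = B) (hB : IsUnit B.det)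
    (hiso : ∀ g, (β g)ᵀ * B * β g = B) (hbig : NormBig ℓ β B) {D : ℕ} (hD : ¬ ℓ ∣ D)
    {x : Fin n → ZMod ℓ} (hx : ∀ g : Γ, red ℓ (β (g ^ D)) *ᵥ x = x) : x = 0 := by
  have hBr : (red ℓ B)ᵀ = red ℓ B := congrArg (red ℓ) hBs
  let W : Submodule (ZMod ℓ) (Fin n → ZMod ℓ) :=
    { carrier := {y | ∀ u : Matrix (Fin n) (Fin n) (ZMod ℓ), uᵀ * red ℓ B * u = red ℓ B →
        u ^ ℓ = 1 → u *ᵥ y = y}
      zero_mem' := fun u _ _ => mulVec_zero u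
      add_mem' := fun {a b} ha hb u h1 h2 => by rw [mulVec_add, ha u h1 h2, hb u h1 h2]
      smul_mem' := fun c a ha u h1 h2 => by rw [mulVec_smul, ha u h1 h2] }
  have hW := ir ℓ h2 n hn (red ℓ B) hBr (det_red_ne hB) W fun g h1 h3 w hw => by
    rw [hw g h1 h3]
    exact hw
  have hxW : x ∈ W := by
    intro u h1 h3
    have hmem : u ∈ Om ℓ (red ℓ B) := Submonoid.subset_closure ⟨h1, h3⟩
    obtain ⟨g₀, hg₀⟩ := hbig.2
    obtain ⟨g, -, hg⟩ := (hbig.1 ⊤ inferInstance isClosed_univ ⟨g₀, trivial, hg₀⟩).1 u hmem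
    have h4 := hx g
    have h5 : red ℓ (β (g ^ D)) = u ^ D := by
      rw [map_pow, ← hg]
      exact Matrix.map_pow (β g) (PadicInt.toZMod : ℤ_[ℓ] →+* ZMod ℓ) D
    rw [h5] at h4
    have h6 : ∀ k : ℕ, (u ^ D) ^ k *ᵥ x = x := by
      intro k
      induction k with
      | zero => rw [pow_zero, one_mulVec]
      | succ k ih => rw [pow_succ, ← mulVec_mulVec, h4, ih]
    obtain ⟨k, -, hk⟩ := Nat.exists_mul_mod_eq_one_of_coprime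
      (((Nat.Prime.coprime_iff_not_dvd hp.out).2 hD).symm) hp.out.one_lt
    have h7 : D * k = ℓ * (D * k / ℓ) + 1 := by
      have h8 := Nat.div_add_mod (D * k) ℓ
      rw [hk] at h8
      exact h8.symm
    have h8 := h6 k
    rwa [← pow_mul, h7, pow_succ, pow_mul, h3, one_pow, one_mul] at h8
  rcases hW with h | h
  · rw [h, Submodule.mem_bot] at hxW
    exact hxW
  · exfalso
    obtain ⟨g₀, hg₀, hg₁⟩ := hbig.2
    apply hg₀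
    have h3 : ∀ y : Fin n → ZMod ℓ, red ℓ (β g₀) *ᵥ y = y := by
      intro y
      have h4 : y ∈ W := by rw [h]; trivial
      exact h4 _ (red_iso (hiso g₀)) hg₁
    ext a b
    have h4 := congrFun (h3 (Pi.single b 1)) a
    rw [mulVec_single_one, Matrix.col_apply] at h4
    rw [h4, Matrix.one_apply, Pi.single_apply]

/-- a vector over `ℚ_ℓ` which is not integral, as a multiple of a primitive vector -/
theorem scale {x : Fin n → ℚ_[ℓ]} (hx : ¬ ∀ a, ‖x a‖ ≤ 1) : ∃ (m : ℕ) (y : Fin n → ℤ_[ℓ]), 0 < m ∧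
    (∀ a, (y a : ℚ_[ℓ]) = (ℓ : ℚ_[ℓ]) ^ m * x a) ∧ (∀ a, ‖x a‖ ≤ (ℓ : ℝ) ^ m) ∧
    ∃ a, ‖y a‖ = 1 := by
  push Not at hx
  obtain ⟨a₀, ha₀⟩ := hx
  obtain ⟨a, -, ha⟩ := Finset.exists_max_image Finset.univ (fun a => ‖x a‖) ⟨a₀, Finset.mem_univ _⟩
  have h1 : 1 < ‖x a‖ := lt_of_lt_of_le ha₀ (ha a₀ (Finset.mem_univ _))
  have hxa : x a ≠ 0 := by
    intro h
    rw [h, norm_zero] at h1
    linarith
  have hℓ1 : (1 : ℝ) < ℓ := by exact_mod_cast hp.out.one_lt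
  have hℓ0 : (0 : ℝ) < ℓ := lt_trans one_pos hℓ1
  have h2 := Padic.norm_eq_zpow_neg_valuation hxa
  have h3 : 0 < -(x a).valuation := by
    rw [h2] at h1
    by_contra h4
    have h5 : (ℓ : ℝ) ^ (-(x a).valuation) ≤ (ℓ : ℝ) ^ (0 : ℤ) :=
      zpow_le_zpow_right₀ hℓ1.le (not_lt.1 h4)
    rw [zpow_zero] at h5
    linarith
  obtain ⟨m, hm⟩ := Int.eq_ofNat_of_zero_le h3.le
  have hm0 : 0 < m := by
    rw [hm] at h3
    exact_mod_cast h3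
  have h4 : ‖x a‖ = (ℓ : ℝ) ^ m := by
    rw [h2, hm]
    exact zpow_natCast _ _
  have hle : ∀ b, ‖x b‖ ≤ (ℓ : ℝ) ^ m := fun b => h4 ▸ ha b (Finset.mem_univ _)
  have hnorm : ‖(ℓ : ℚ_[ℓ]) ^ m‖ = ((ℓ : ℝ) ^ m)⁻¹ := by
    rw [norm_pow, Padic.norm_p, inv_pow]
  have hpos : (0 : ℝ) < (ℓ : ℝ) ^ m := pow_pos hℓ0 m
  have hy : ∀ b, ‖(ℓ : ℚ_[ℓ]) ^ m * x b‖ ≤ 1 := by
    intro b
    rw [norm_mul, hnorm, inv_mul_le_iff₀ hpos, mul_one]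
    exact hle b
  refine ⟨m, fun b => ⟨(ℓ : ℚ_[ℓ]) ^ m * x b, hy b⟩, hm0, fun b => rfl, hle, a, ?_⟩
  show ‖(ℓ : ℚ_[ℓ]) ^ m * x a‖ = 1
  rw [norm_mul, hnorm, h4, inv_mul_cancel₀ hpos.ne']

theorem toZMod_zero {z : ℤ_[ℓ]} (h : ‖z‖ < 1) : (PadicInt.toZMod : ℤ_[ℓ] →+* ZMod ℓ) z = 0 := by
  have h1 : z ∈ RingHom.ker (PadicInt.toZMod : ℤ_[ℓ] →+* ZMod ℓ) := by
    rw [PadicInt.ker_toZMod, IsLocalRing.mem_maximalIdeal, PadicInt.mem_nonunits]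
    exact h
  exact h1

theorem norm_of_toZMod {z : ℤ_[ℓ]} (h : (PadicInt.toZMod : ℤ_[ℓ] →+* ZMod ℓ) z = 0) : ‖z‖ < 1 := by
  have h1 : z ∈ RingHom.ker (PadicInt.toZMod : ℤ_[ℓ] →+* ZMod ℓ) := h
  rwa [PadicInt.ker_toZMod, IsLocalRing.mem_maximalIdeal, PadicInt.mem_nonunits] at h1

theorem gen_mulVec {x : Fin n → ℚ_[ℓ]} {y : Fin n → ℤ_[ℓ]} {c : ℚ_[ℓ]} (h : ∀ a, (y a : ℚ_[ℓ]) = c * x a)
    (A : Matrix (Fin n) (Fin n) ℤ_[ℓ]) (a : Fin n) :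
    (((A *ᵥ y - y) a : ℤ_[ℓ]) : ℚ_[ℓ]) = c * (genM ℓ A *ᵥ x - x) a := by
  have h1 : (((A *ᵥ y) a : ℤ_[ℓ]) : ℚ_[ℓ]) = c * (genM ℓ A *ᵥ x) a := by
    rw [mulVec, mulVec, dotProduct, dotProduct, Finset.mul_sum]
    rw [PadicInt.coe_sum]
    refine Finset.sum_congr rfl fun b _ => ?_
    rw [PadicInt.coe_mul, h]
    show _ = c * (((A a b : ℤ_[ℓ]) : ℚ_[ℓ]) * x b)
    ring
  rw [Pi.sub_apply, PadicInt.coe_sub, h1, h, Pi.sub_apply]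
  ring

/-- **no invariants in `T ⊗ ℚ_ℓ / ℤ_ℓ` at the primes with big image** -/
theorem integral_big (h2 : ℓ ≠ 2) (hn : 3 ≤ n) (hBs : Bᵀ = B) (hB : IsUnit B.det)
    (hiso : ∀ g, (β g)ᵀ * B * β g = B) (hbig : NormBig ℓ β B) {D : ℕ} (hD : ¬ ℓ ∣ D)
    {x : Fin n → ℚ_[ℓ]} (hx : ∀ (g : Γ) (a), ‖(genM ℓ (β (g ^ D)) *ᵥ x - x) a‖ ≤ 1) :
    ∀ a, ‖x a‖ ≤ 1 := by
  by_contra hcon
  obtain ⟨m, y, hm, hy, -, a, ha⟩ := scale hcon
  have hℓ1 : (1 : ℝ) < ℓ := by exact_mod_cast hp.out.one_lt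
  have h0 : (fun b => (PadicInt.toZMod : ℤ_[ℓ] →+* ZMod ℓ) (y b)) = 0 := by
    refine fixed_zero h2 hn hBs hB hiso hbig hD fun g => ?_
    ext b
    have h1 := gen_mulVec hy (β (g ^ D)) b
    have h3 : ‖(β (g ^ D) *ᵥ y - y) b‖ < 1 := by
      show ‖(((β (g ^ D) *ᵥ y - y) b : ℤ_[ℓ]) : ℚ_[ℓ])‖ < 1
      rw [h1, norm_mul, norm_pow, Padic.norm_p]
      have h4 : ((ℓ : ℝ)⁻¹) ^ m < 1 := pow_lt_one₀ (by positivity) (inv_lt_one_of_one_lt₀ hℓ1) hm.ne'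
      calc ((ℓ : ℝ)⁻¹) ^ m * ‖(genM ℓ (β (g ^ D)) *ᵥ x - x) b‖ ≤ ((ℓ : ℝ)⁻¹) ^ m * 1 :=
            mul_le_mul_of_nonneg_left (hx g b) (by positivity)
        _ < 1 := by rwa [mul_one]
    have h4 := toZMod_zero h3
    rw [Pi.sub_apply, map_sub, sub_eq_zero] at h4
    rw [← h4]
    exact (RingHom.map_mulVec (PadicInt.toZMod : ℤ_[ℓ] →+* ZMod ℓ) (β (g ^ D)) y b).symm
  have h1 := norm_of_toZMod (congrFun h0 a)
  rw [ha] at h1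
  exact lt_irrefl _ h1

end modl

section full

variable {ℓ : ℕ} [hp : Fact ℓ.Prime] {n : ℕ} {Γ : Type} [Group Γ]

theorem tendsto_one' {ρ : Γ →* Matrix (Fin n) (Fin n) ℚ_[ℓ]} {X : Matrix (Fin n) (Fin n) ℚ_[ℓ]}
    {σ : ℕ → Γ} (hσ : Tendsto (fun k : ℕ => ((ℓ : ℚ_[ℓ]) ^ k)⁻¹ • (ρ (σ k) - 1)) atTop (𝓝 X)) :
    Tendsto (fun k => ρ (σ k)) atTop (𝓝 1) := by
  have hℓ : ‖(ℓ : ℚ_[ℓ])‖ < 1 := Padic.norm_p_lt_one
  have h1 : Tendsto (fun n : ℕ => (ℓ : ℚ_[ℓ]) ^ n) atTop (𝓝 0) :=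
    tendsto_pow_atTop_nhds_zero_of_norm_lt_one hℓ
  have h2 := (h1.smul hσ).const_add (1 : Matrix (Fin n) (Fin n) ℚ_[ℓ])
  rw [zero_smul, add_zero] at h2
  refine h2.congr fun k => ?_
  have hne : (ℓ : ℚ_[ℓ]) ^ k ≠ 0 := pow_ne_zero _ (by exact_mod_cast hp.out.ne_zero)
  rw [smul_smul, mul_inv_cancel₀ hne, one_smul, add_sub_cancel]

/-- tangent vectors along powers -/
theorem tangent_pow {ρ : Γ →* Matrix (Fin n) (Fin n) ℚ_[ℓ]} {X : Matrix (Fin n) (Fin n) ℚ_[ℓ]}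
    {σ : ℕ → Γ} (hσ : Tendsto (fun k : ℕ => ((ℓ : ℚ_[ℓ]) ^ k)⁻¹ • (ρ (σ k) - 1)) atTop (𝓝 X))
    (D : ℕ) : Tendsto (fun k : ℕ => ((ℓ : ℚ_[ℓ]) ^ k)⁻¹ • (ρ (σ k ^ D) - 1)) atTop
      (𝓝 ((D : ℚ_[ℓ]) • X)) := by
  induction D with
  | zero =>
    have h1 : (fun k : ℕ => ((ℓ : ℚ_[ℓ]) ^ k)⁻¹ • (ρ (σ k ^ 0) - 1)) = fun _ => 0 := by
      funext k
      rw [pow_zero, map_one, sub_self, smul_zero]
    rw [h1, Nat.cast_zero, zero_smul]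
    exact tendsto_const_nhds
  | succ D ih =>
    have h1 : Tendsto (fun k => ρ (σ k)) atTop (𝓝 1) := tendsto_one' hσ
    have h2 := (ih.mul h1).add hσ
    rw [mul_one] at h2
    have h3 : (D : ℚ_[ℓ]) • X + X = ((D + 1 : ℕ) : ℚ_[ℓ]) • X := by
      rw [Nat.cast_add, Nat.cast_one, add_smul, one_smul]
    rw [h3] at h2
    refine h2.congr fun k => ?_
    rw [pow_succ, map_mul, smul_mul_assoc, ← smul_add, sub_mul, one_mul]
    congr 1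
    abel

/-- a nonzero vector is not fixed by all `D`-th powers, if the Lie algebra is full -/
theorem no_fixed (hn : 2 ≤ n) {ρ : Γ →* Matrix (Fin n) (Fin n) ℚ_[ℓ]}
    {B : Matrix (Fin n) (Fin n) ℚ_[ℓ]} (hBs : Bᵀ = B) (hB : B.det ≠ 0) (hfull : FullLie ℓ ρ B)
    {D : ℕ} (hD : 0 < D) {y : Fin n → ℚ_[ℓ]} (hy : ∀ g, ρ (g ^ D) *ᵥ y = y) : y = 0 := by
  by_contra hy0
  have hX : ∀ X, Skew B X → X *ᵥ y = 0 := by
    intro X hX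
    obtain ⟨σ, hσ⟩ := hfull X hX
    have h1 := tangent_pow hσ D
    have h2 : Tendsto (fun k : ℕ => (((ℓ : ℚ_[ℓ]) ^ k)⁻¹ • (ρ (σ k ^ D) - 1)) *ᵥ y) atTop
        (𝓝 (((D : ℚ_[ℓ]) • X) *ᵥ y)) :=
      ((continuous_id.matrix_mulVec continuous_const).tendsto _).comp h1
    have h3 : (fun k : ℕ => (((ℓ : ℚ_[ℓ]) ^ k)⁻¹ • (ρ (σ k ^ D) - 1)) *ᵥ y) = fun _ => 0 := by
      funext k
      rw [smul_mulVec, sub_mulVec, hy, one_mulVec, sub_self, smul_zero]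
    rw [h3] at h2
    have h4 := tendsto_nhds_unique h2 tendsto_const_nhds
    rw [smul_mulVec] at h4
    exact (smul_eq_zero.1 h4).resolve_left (by exact_mod_cast hD.ne')
  obtain ⟨a, ha⟩ := MG.exists_pair hB hy0
  have hb : ∀ b : Fin n → ℚ_[ℓ], b = (b ⬝ᵥ B *ᵥ y) • a := by
    intro b
    have h1 := hX _ ((PO.skew_sp hBs).2 (MG.rk_mem (ε := 1) (one_mul 1)
      (by rw [one_smul]; exact hBs) a b))
    rw [MG.rk_mulVec, ha, one_smul, one_mul, sub_eq_zero] at h1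
    exact h1
  have h0 : 0 < n := by omega
  have h1 : 1 < n := by omega
  have e0 := hb (Pi.single ⟨0, h0⟩ 1)
  have e1 := hb (Pi.single ⟨1, h1⟩ 1)
  have hne : (⟨0, h0⟩ : Fin n) ≠ ⟨1, h1⟩ := by
    intro h
    have := congrArg Fin.val h
    simp at this
  have e00 := congrFun e0 ⟨0, h0⟩
  have e01 := congrFun e0 ⟨1, h1⟩
  have e11 := congrFun e1 ⟨1, h1⟩
  rw [Pi.single_eq_same, Pi.smul_apply, smul_eq_mul] at e00 e11
  rw [Pi.single_eq_of_ne hne.symm, Pi.smul_apply, smul_eq_mul] at e01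
  rcases mul_eq_zero.1 e01.symm with h | h
  · rw [h, zero_mul] at e00
    exact one_ne_zero e00
  · rw [h, mul_zero] at e11
    exact one_ne_zero e11

/-- **bounded invariants in `T ⊗ ℚ_ℓ / ℤ_ℓ` at the primes with full Lie algebra** -/
theorem integral_full (hn : 2 ≤ n) {β : Γ →* Matrix (Fin n) (Fin n) ℤ_[ℓ]}
    {B : Matrix (Fin n) (Fin n) ℚ_[ℓ]} (hBs : Bᵀ = B) (hB : B.det ≠ 0)
    (hfull : FullLie ℓ (genRep ℓ β) B) {D : ℕ} (hD : 0 < D) :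
    ∃ c : ℕ, ∀ x : Fin n → ℚ_[ℓ], (∀ (g : Γ) (a), ‖(genM ℓ (β (g ^ D)) *ᵥ x - x) a‖ ≤ 1) →
      ∀ a, ‖(ℓ : ℚ_[ℓ]) ^ c * x a‖ ≤ 1 := by
  by_contra hcon
  push Not at hcon
  choose x hx a ha using hcon
  have hℓ1 : (1 : ℝ) < ℓ := by exact_mod_cast hp.out.one_lt
  have hℓ0 : (0 : ℝ) < ℓ := lt_trans one_pos hℓ1
  have hbig : ∀ c, (ℓ : ℝ) ^ c < ‖x c (a c)‖ := by
    intro c
    have h1 := ha c
    rw [norm_mul, norm_pow, Padic.norm_p, inv_pow] at h1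
    have h2 : (0 : ℝ) < (ℓ : ℝ) ^ c := pow_pos hℓ0 c
    rwa [lt_inv_mul_iff₀ h2, mul_one] at h1
  have hnot : ∀ c, ¬ ∀ b, ‖x c b‖ ≤ 1 := by
    intro c h
    have h1 := hbig c
    have h2 := h (a c)
    have h3 : (1 : ℝ) ≤ (ℓ : ℝ) ^ c := one_le_pow₀ hℓ1.le
    linarith
  choose m y hm hy hle b hb using fun c => scale (hnot c)
  have hcm : ∀ c, c < m c := by
    intro c
    have h1 := lt_of_lt_of_le (hbig c) (hle c (a c))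
    exact (pow_lt_pow_iff_right₀ hℓ1).1 h1
  obtain ⟨z, φ, hφ, hz⟩ := CompactSpace.tendsto_subseq y
  -- the limit is not zero
  have hz0 : z ≠ 0 := by
    rintro rfl
    have h1 : ∀ᶠ k in atTop, ∀ e, ‖y (φ k) e‖ < 1 := by
      rw [eventually_all]
      intro e
      have hc : Continuous (fun v : Fin n → ℤ_[ℓ] => ‖v e‖) := (continuous_apply e).norm
      have h2 : Tendsto (fun k => ‖y (φ k) e‖) atTop (𝓝 ‖(0 : Fin n → ℤ_[ℓ]) e‖) :=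
        (hc.tendsto 0).comp hz
      rw [Pi.zero_apply, norm_zero] at h2
      exact h2.eventually (gt_mem_nhds one_pos)
    obtain ⟨k, hk⟩ := h1.exists
    have h2 := hk (b (φ k))
    rw [hb] at h2
    exact lt_irrefl _ h2
  -- the limit is fixed
  have hfix : ∀ g : Γ, β (g ^ D) *ᵥ z - z = 0 := by
    intro g
    have h1 : Tendsto (fun k => β (g ^ D) *ᵥ y (φ k) - y (φ k)) atTop
        (𝓝 (β (g ^ D) *ᵥ z - z)) :=
      (((continuous_const.matrix_mulVec continuous_id).sub continuous_id).tendsto z).comp hz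
    have h2 : Tendsto (fun k => β (g ^ D) *ᵥ y (φ k) - y (φ k)) atTop (𝓝 0) := by
      rw [tendsto_pi_nhds]
      intro e
      rw [Pi.zero_apply]
      refine squeeze_zero_norm (a := fun k : ℕ => ((ℓ : ℝ)⁻¹) ^ k) (fun k => ?_)
        (tendsto_pow_atTop_nhds_zero_of_lt_one (by positivity) (inv_lt_one_of_one_lt₀ hℓ1))
      show ‖(((β (g ^ D) *ᵥ y (φ k) - y (φ k)) e : ℤ_[ℓ]) : ℚ_[ℓ])‖ ≤ _
      rw [gen_mulVec (hy (φ k)), norm_mul, norm_pow, Padic.norm_p]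
      calc ((ℓ : ℝ)⁻¹) ^ m (φ k) * ‖(genM ℓ (β (g ^ D)) *ᵥ x (φ k) - x (φ k)) e‖
          ≤ ((ℓ : ℝ)⁻¹) ^ m (φ k) * 1 := mul_le_mul_of_nonneg_left (hx (φ k) g e) (by positivity)
        _ = ((ℓ : ℝ)⁻¹) ^ m (φ k) := mul_one _
        _ ≤ ((ℓ : ℝ)⁻¹) ^ k := pow_le_pow_of_le_one (by positivity)
            (inv_lt_one_of_one_lt₀ hℓ1).le (le_trans (hφ.id_le k) (hcm (φ k)).le)
    exact tendsto_nhds_unique h1 h2
  have hY : (fun e => ((z e : ℤ_[ℓ]) : ℚ_[ℓ])) = 0 := by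
    refine no_fixed hn hBs hB hfull hD fun g => ?_
    have h1 := fun e => gen_mulVec (x := fun e => ((z e : ℤ_[ℓ]) : ℚ_[ℓ])) (y := z) (c := 1)
      (fun e => (one_mul _).symm) (β (g ^ D)) e
    have h2 : ∀ e, (genM ℓ (β (g ^ D)) *ᵥ (fun e => ((z e : ℤ_[ℓ]) : ℚ_[ℓ])) -
        fun e => ((z e : ℤ_[ℓ]) : ℚ_[ℓ])) e = 0 := by
      intro e
      have h3 := h1 e
      rw [hfix g, one_mul] at h3
      rw [← h3]
      rfl
    exact sub_eq_zero.1 (funext h2)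
  apply hz0
  funext e
  exact Subtype.val_injective (congrFun hY e)

end full

end Pool.Agent.T2H36.BR
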